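import Pool.Agent.H73.TS.TargetsB

open MeasureTheory Set Metric
open scoped ENNReal

namespace Pool.Agent.H54.TS

open Pool.Agent.H73.TS

private theorem lac_vol_translate {d : ℕ} (P : Set (E d)) (t : E d) :
    volume ((fun x => t + x) '' P) = volume P := by
  have h : (fun x : E d => t + x) '' P = (fun x => -t + x) ⁻¹' P := by
    ext x
    constructor
    · rintro ⟨y, hy, rfl⟩
      show -t + (t + y) ∈ P
      rwa [neg_add_cancel_left]
    · intro hx
      exact ⟨-t + x, hx, by simp⟩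
  rw [h, measure_preimage_add]

private theorem lac_countable {d : ℕ} (w : Fin d → E d) : (Lat w).Countable := by
  have h : Lat w = range fun m : Fin d → ℤ => ∑ i, (m i : ℝ) • w i := by
    ext x
    constructor
    · rintro ⟨m, rfl⟩
      exact ⟨m, rfl⟩
    · rintro ⟨m, rfl⟩
      exact ⟨m, rfl⟩
  rw [h]
  exact countable_range _

private theorem lac_par {d : ℕ} {w : Fin d → E d} {v t x y : E d}
    (hx : x ∈ (fun z => t + z) '' Par w v) (hy : y ∈ (fun z => t + z) '' Par w v) :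
    ‖y - x‖ ≤ ∑ i, ‖w i‖ := by
  obtain ⟨x', ⟨a, ha, rfl⟩, rfl⟩ := hx
  obtain ⟨y', ⟨b, hb, rfl⟩, rfl⟩ := hy
  have h1 : (t + (v + ∑ i, b i • w i)) - (t + (v + ∑ i, a i • w i)) = ∑ i, (b i - a i) • w i := by
    simp only [sub_smul, Finset.sum_sub_distrib]
    abel
  show ‖(t + (v + ∑ i, b i • w i)) - (t + (v + ∑ i, a i • w i))‖ ≤ _
  rw [h1]
  refine (norm_sum_le _ _).trans (Finset.sum_le_sum fun i _ => ?_)
  rw [norm_smul, Real.norm_eq_abs]
  have h2 : |b i - a i| ≤ 1 := by
    rw [abs_le]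
    have := ha i
    have := hb i
    simp only [mem_Icc] at *
    constructor <;> linarith
  calc |b i - a i| * ‖w i‖ ≤ 1 * ‖w i‖ := mul_le_mul_of_nonneg_right h2 (norm_nonneg _)
    _ = ‖w i‖ := one_mul _

private theorem lac_cover {d : ℕ} {w : Fin d → E d} (v : E d) (L : E d ≃L[ℝ] E d)
    (hL : ∀ i, L (w i) = EuclideanSpace.single i (1 : ℝ)) (x : E d) :
    ∃ t ∈ Lat w, x ∈ (fun z => t + z) '' Par w v := by
  have h1 : x - v = ∑ i, (L (x - v) i) • w i := by
    apply L.injective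
    rw [map_sum]
    simp only [map_smul, hL]
    ext j
    simp [Finset.sum_apply, Pi.single_apply]
  refine ⟨∑ i, ((⌊L (x - v) i⌋ : ℤ) : ℝ) • w i, ⟨fun i => ⌊L (x - v) i⌋, rfl⟩,
    v + ∑ i, Int.fract (L (x - v) i) • w i,
    ⟨fun i => Int.fract (L (x - v) i), fun i => ⟨Int.fract_nonneg _, (Int.fract_lt_one _).le⟩, rfl⟩, ?_⟩
  show (∑ i, ((⌊L (x - v) i⌋ : ℤ) : ℝ) • w i) + (v + ∑ i, Int.fract (L (x - v) i) • w i) = x
  have h2 : (∑ i, ((⌊L (x - v) i⌋ : ℤ) : ℝ) • w i) + ∑ i, Int.fract (L (x - v) i) • w i = x - v := by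
    rw [← Finset.sum_add_distrib, h1]
    refine Finset.sum_congr rfl fun i _ => ?_
    rw [← h1, ← add_smul, Int.floor_add_fract]
  calc _ = v + ((∑ i, ((⌊L (x - v) i⌋ : ℤ) : ℝ) • w i) + ∑ i, Int.fract (L (x - v) i) • w i) := by
        abel
    _ = x := by rw [h2]; abel

theorem lac (hPAR : T_PAR) : T_LAC := by
  intro d w v hd hw Om hOmc hOmv h0
  obtain ⟨L, hL, hdet, -⟩ := hPAR d w v hw
  have hP0 : volume (Par w v) ≠ 0 := by
    intro h
    rw [h, zero_mul] at hdet
    exact zero_ne_one hdet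
  have hPt : volume (Par w v) ≠ ⊤ := by
    intro h
    rw [h] at hdet
    by_cases h1 : ENNReal.ofReal |LinearMap.det (L : E d →ₗ[ℝ] E d)| = 0
    · rw [h1, mul_zero] at hdet
      exact zero_ne_one hdet
    · rw [ENNReal.top_mul h1] at hdet
      exact ENNReal.top_ne_one hdet
  have hO0 : volume Om ≠ 0 := by
    intro h
    have h1 : volume (interior Om) = 0 := measure_mono_null interior_subset h
    exact (isOpen_interior.measure_pos volume ⟨0, h0⟩).ne' h1
  have hOt : volume Om ≠ ⊤ := hOmc.measure_lt_top.ne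
  set δ : ℝ := ∑ i, ‖w i‖ with hδ
  have hδ0 : 0 ≤ δ := Finset.sum_nonneg fun i _ => norm_nonneg _
  obtain ⟨ε, hε, hεb⟩ := Metric.mem_nhds_iff.1 (mem_interior_iff_mem_nhds.1 h0)
  set D : ℝ := (δ + 1) / ε with hD
  have hD0 : 0 < D := by positivity
  have hDO : ∀ z : E d, ‖z‖ ≤ δ → ∃ b ∈ Om, z = D • b := by
    intro z hz
    refine ⟨D⁻¹ • z, hεb ?_, by rw [smul_inv_smul₀ hD0.ne']⟩
    rw [mem_ball_zero_iff, norm_smul, norm_inv, Real.norm_eq_abs, abs_of_pos hD0, hD, inv_div]
    rw [div_mul_eq_mul_div, div_lt_iff₀ (by positivity)]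
    nlinarith
  set S : ℝ → Set (E d) := fun R =>
    {t ∈ Lat w | (fun x => t + x) '' (Par w v) ⊆ (fun x => R • x) '' Om} with hS
  have hcov : ∀ R, D < R → (fun x : E d => (R - D) • x) '' Om ⊆
      ⋃ t ∈ S R, (fun x => t + x) '' (Par w v) := by
    rintro R hR x ⟨a, ha, hax⟩
    obtain ⟨t, ht, hxt⟩ := lac_cover v L hL x
    refine mem_iUnion₂.2 ⟨t, ⟨ht, ?_⟩, hxt⟩
    intro y hy
    obtain ⟨b, hb, hyb⟩ := hDO (y - x) (lac_par hxt hy)
    have hR0 : 0 < R := hD0.trans hR
    refine ⟨((R - D) / R) • a + (D / R) • b, ?_, ?_⟩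
    · exact hOmv ha hb (div_nonneg (by linarith) hR0.le) (by positivity)
        (by rw [← add_div, sub_add_cancel, div_self hR0.ne'])
    · show R • (((R - D) / R) • a + (D / R) • b) = y
      rw [smul_add, smul_smul, smul_smul, mul_div_cancel₀ _ hR0.ne', mul_div_cancel₀ _ hR0.ne',
        ← hyb]
      show (R - D) • a + (y - x) = y
      have : (R - D) • a = x := hax
      rw [this]
      abel
  have hvol : ∀ R : ℝ, 0 ≤ R → volume ((fun x : E d => R • x) '' Om) =
      ENNReal.ofReal (R ^ d) * volume Om := by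
    intro R hR
    have h1 := Measure.addHaar_smul (volume : Measure (E d)) R Om
    rw [finrank_euclideanSpace_fin, abs_of_nonneg (pow_nonneg hR d)] at h1
    exact h1
  have hmain : ∀ R, D < R → (volume (Par w v))⁻¹ * ENNReal.ofReal (((R - D) / R) ^ d) ≤
      (((S R).encard : ℕ∞) : ℝ≥0∞) / volume ((fun x : E d => R • x) '' Om) := by
    intro R hR
    have hR0 : 0 < R := hD0.trans hR
    have h1 : volume ((fun x : E d => (R - D) • x) '' Om) ≤
        (((S R).encard : ℕ∞) : ℝ≥0∞) * volume (Par w v) := by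
      refine (measure_mono (hcov R hR)).trans ?_
      refine (measure_biUnion_le volume ((lac_countable w).mono fun t ht => ht.1) _).trans ?_
      have h2 : ∀ p : S R, volume ((fun x => (p : E d) + x) '' Par w v) = volume (Par w v) :=
        fun p => lac_vol_translate _ _
      simp_rw [h2]
      rw [ENNReal.tsum_const]
      exact le_of_eq rfl
    rw [hvol _ (by linarith)] at h1
    rw [hvol _ hR0.le]
    have hRd : ENNReal.ofReal (R ^ d) ≠ 0 := by
      rw [Ne, ENNReal.ofReal_eq_zero, not_le]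
      positivity
    rw [ENNReal.le_div_iff_mul_le (Or.inl (mul_ne_zero hRd hO0))
      (Or.inl (ENNReal.mul_ne_top ENNReal.ofReal_ne_top hOt))]
    have h3 : ENNReal.ofReal (((R - D) / R) ^ d) * ENNReal.ofReal (R ^ d) =
        ENNReal.ofReal ((R - D) ^ d) := by
      rw [← ENNReal.ofReal_mul (by
        have : 0 ≤ (R - D) / R := div_nonneg (by linarith) hR0.le
        positivity), ← mul_pow, div_mul_cancel₀ _ hR0.ne']
    calc (volume (Par w v))⁻¹ * ENNReal.ofReal (((R - D) / R) ^ d) *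
          (ENNReal.ofReal (R ^ d) * volume Om)
        = (volume (Par w v))⁻¹ * (ENNReal.ofReal (((R - D) / R) ^ d) * ENNReal.ofReal (R ^ d) *
          volume Om) := by ring
      _ = (volume (Par w v))⁻¹ * (ENNReal.ofReal ((R - D) ^ d) * volume Om) := by rw [h3]
      _ ≤ (volume (Par w v))⁻¹ * ((((S R).encard : ℕ∞) : ℝ≥0∞) * volume (Par w v)) := by gcongr
      _ = (((S R).encard : ℕ∞) : ℝ≥0∞) * ((volume (Par w v))⁻¹ * volume (Par w v)) := by ring
      _ = (((S R).encard : ℕ∞) : ℝ≥0∞) := by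
        rw [ENNReal.inv_mul_cancel hP0 hPt, mul_one]
  have hlim : Filter.Tendsto (fun R : ℝ => (volume (Par w v))⁻¹ *
      ENNReal.ofReal (((R - D) / R) ^ d)) Filter.atTop (nhds ((volume (Par w v))⁻¹)) := by
    have h1 : Filter.Tendsto (fun R : ℝ => ((R - D) / R) ^ d) Filter.atTop (nhds (1 ^ d)) := by
      refine Filter.Tendsto.pow ?_ d
      have h2 : Filter.Tendsto (fun R : ℝ => 1 - D / R) Filter.atTop (nhds (1 - 0)) :=
        tendsto_const_nhds.sub (tendsto_const_nhds.div_atTop Filter.tendsto_id)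
      rw [sub_zero] at h2
      refine h2.congr' ?_
      filter_upwards [Filter.eventually_gt_atTop 0] with R hR
      rw [sub_div, div_self hR.ne']
    have h3 := ENNReal.Tendsto.const_mul (a := (volume (Par w v))⁻¹) (ENNReal.tendsto_ofReal h1)
      (Or.inr (ENNReal.inv_ne_top.2 hP0))
    simpa using h3
  rw [← hlim.liminf_eq]
  refine Filter.liminf_le_liminf ?_
  filter_upwards [Filter.eventually_gt_atTop D] with R hR
  exact hmain R hR

end Pool.Agent.H54.TS
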