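import Pool.Agent.H73.TS.Targets

open MeasureTheory Set Metric
open scoped ENNReal

namespace Pool.Agent.H54.TS

open Pool.Agent.H73.TS

theorem one : T_ONE := by
  intro d x
  unfold W
  have h1 : ∀ y : E d, Real.exp (-(Real.pi * infDist y {x} ^ 2)) =
      (fun z : E d => Real.exp (-Real.pi * ‖z‖ ^ 2)) (y - x) := by
    intro y
    rw [infDist_singleton, dist_eq_norm]
    simp only [neg_mul]
  simp_rw [h1]
  rw [integral_sub_right_eq_self (fun z : E d => Real.exp (-Real.pi * ‖z‖ ^ 2)) x]
  rw [GaussianFourier.integral_rexp_neg_mul_sq_norm Real.pi_pos]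
  rw [div_self Real.pi_pos.ne', Real.one_rpow]

end Pool.Agent.H54.TS
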